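import Mathlib

set_option autoImplicit false

/-! The base-2 pseudoprimes up to `x` with a prime factor larger than `y`. -/

namespace Pool.Agent.H76MW

open Finset Real

/-- the base-2 pseudoprimes up to `x` -/
def Psp (x : ℕ) : Finset ℕ :=
  (Icc 2 x).filter (fun n => ¬ n.Prime ∧ (2 : ZMod n) ^ (n - 1) = 1)

lemma mem_Psp {x n : ℕ} : n ∈ Psp x ↔ 2 ≤ n ∧ n ≤ x ∧ ¬ n.Prime ∧ (2 : ZMod n) ^ (n - 1) = 1 := by
  classical
  unfold Psp
  rw [mem_filter, mem_Icc, and_assoc]

/-- for a prime `p` the base-2 pseudoprimes `p m ≤ x` number at most `x / (p l)`, `l` the order of `2` -/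
lemma card_dvd {p : ℕ} (hp : p.Prime) (x : ℕ) :
    (((Psp x).filter (fun n => p ∣ n)).card : ℝ) ≤ (x : ℝ) / (p * orderOf (2 : ZMod p)) := by
  classical
  have hp0 : 0 < p := hp.pos
  by_cases hl : orderOf (2 : ZMod p) = 0
  · -- then no pseudoprime is divisible by `p`
    have hempty : (Psp x).filter (fun n => p ∣ n) = ∅ := by
      rw [Finset.filter_eq_empty_iff]
      intro n hn hpn
      obtain ⟨h2, _, _, h⟩ := mem_Psp.1 hn
      have h' : (2 : ZMod p) ^ (n - 1) = 1 := by
        have := congrArg (ZMod.castHom hpn (ZMod p)) h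
        rwa [map_pow, map_one, map_ofNat] at this
      have := orderOf_dvd_of_pow_eq_one h'
      rw [hl, zero_dvd_iff] at this
      omega
    rw [hempty]
    simp only [card_empty, Nat.cast_zero]
    positivity
  set l := orderOf (2 : ZMod p) with hldef
  have hl0 : 0 < l := Nat.pos_of_ne_zero hl
  have hmap : ∀ n ∈ (Psp x).filter (fun n => p ∣ n),
      (n / p - 1) / l ∈ Icc 1 (x / (p * l)) := by
    intro n hn
    rw [mem_filter] at hn
    obtain ⟨hn1, hpn⟩ := hn
    obtain ⟨h2, hx, hnp, h⟩ := mem_Psp.1 hn1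
    obtain ⟨m, rfl⟩ := hpn
    rw [Nat.mul_div_cancel_left m hp0]
    have hm1 : 1 < m := by
      rcases Nat.lt_or_ge 1 m with h1 | h1
      · exact h1
      · interval_cases m
        · omega
        · rw [mul_one] at hnp
          exact absurd hp hnp
    have h' : (2 : ZMod p) ^ (p * m - 1) = 1 := by
      have := congrArg (ZMod.castHom (Dvd.intro m rfl : p ∣ p * m) (ZMod p)) h
      rwa [map_pow, map_one, map_ofNat] at this
    have hd1 : l ∣ p * m - 1 := orderOf_dvd_of_pow_eq_one h'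
    have hd2 : l ∣ p - 1 := by
      have := Fact.mk hp
      have h20 : (2 : ZMod p) ≠ 0 := by
        intro h0
        rw [h0, zero_pow (by omega)] at h'
        exact zero_ne_one h'
      exact orderOf_dvd_of_pow_eq_one (ZMod.pow_card_sub_one_eq_one h20)
    have hd3 : l ∣ m - 1 := by
      have e : p * m - 1 = (p - 1) * m + (m - 1) := by
        have h1 : 1 ≤ p := hp.one_le
        obtain ⟨q, rfl⟩ : ∃ q, p = q + 1 := ⟨p - 1, by omega⟩
        rw [Nat.add_sub_cancel, add_mul, one_mul]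
        omega
      rw [e] at hd1
      exact (Nat.dvd_add_right (Dvd.dvd.mul_right hd2 m)).1 hd1
    rw [mem_Icc]
    constructor
    · exact (Nat.one_le_div_iff hl0).2 (Nat.le_of_dvd (by omega) hd3)
    · rw [← Nat.div_div_eq_div_mul]
      apply Nat.div_le_div_right
      have : m ≤ x / p := (Nat.le_div_iff_mul_le hp0).2 (by rw [mul_comm]; exact hx)
      omega
  have hinj : Set.InjOn (fun n => (n / p - 1) / l) ((Psp x).filter (fun n => p ∣ n) : Set ℕ) := by
    intro n hn n' hn' he
    have key : ∀ n ∈ ((Psp x).filter (fun n => p ∣ n) : Set ℕ), n = p * (1 + l * ((n / p - 1) / l)) := by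
      intro n hn
      rw [mem_coe, mem_filter] at hn
      obtain ⟨hn1, hpn⟩ := hn
      obtain ⟨h2, hx, hnp, h⟩ := mem_Psp.1 hn1
      obtain ⟨m, rfl⟩ := hpn
      rw [Nat.mul_div_cancel_left m hp0]
      have hm1 : 1 < m := by
        rcases Nat.lt_or_ge 1 m with h1 | h1
        · exact h1
        · interval_cases m
          · omega
          · rw [mul_one] at hnp
            exact absurd hp hnp
      have h' : (2 : ZMod p) ^ (p * m - 1) = 1 := by
        have := congrArg (ZMod.castHom (Dvd.intro m rfl : p ∣ p * m) (ZMod p)) h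
        rwa [map_pow, map_one, map_ofNat] at this
      have hd1 : l ∣ p * m - 1 := orderOf_dvd_of_pow_eq_one h'
      have hd2 : l ∣ p - 1 := by
        have := Fact.mk hp
        have h20 : (2 : ZMod p) ≠ 0 := by
          intro h0
          rw [h0, zero_pow (by omega)] at h'
          exact zero_ne_one h'
        exact orderOf_dvd_of_pow_eq_one (ZMod.pow_card_sub_one_eq_one h20)
      have hd3 : l ∣ m - 1 := by
        have e : p * m - 1 = (p - 1) * m + (m - 1) := by
          have h1 : 1 ≤ p := hp.one_le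
          obtain ⟨q, rfl⟩ : ∃ q, p = q + 1 := ⟨p - 1, by omega⟩
          rw [Nat.add_sub_cancel, add_mul, one_mul]
          omega
        rw [e] at hd1
        exact (Nat.dvd_add_right (Dvd.dvd.mul_right hd2 m)).1 hd1
      rw [Nat.mul_div_cancel' hd3]
      congr 1
      omega
    have he' : (n / p - 1) / l = (n' / p - 1) / l := he
    rw [key n hn, key n' hn', he']
  have hcard := card_le_card_of_injOn (fun n => (n / p - 1) / l) hmap hinj
  rw [Nat.card_Icc, Nat.add_sub_cancel] at hcard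
  calc (((Psp x).filter (fun n => p ∣ n)).card : ℝ) ≤ ((x / (p * l) : ℕ) : ℝ) := by exact_mod_cast hcard
    _ ≤ (x : ℝ) / ((p * l : ℕ) : ℝ) := Nat.cast_div_le
    _ = (x : ℝ) / (p * l) := by push_cast; ring

/-- few primes divide `2^l - 1` for some `1 ≤ l ≤ L` -/
lemma card_small_order (L : ℕ) (P : Finset ℕ)
    (hP : ∀ p ∈ P, p.Prime ∧ ∃ l, 1 ≤ l ∧ l ≤ L ∧ p ∣ 2 ^ l - 1) : P.card ≤ L * L := by
  classical
  set N : ℕ := ∏ l ∈ Icc 1 L, (2 ^ l - 1) with hN
  have hN0 : N ≠ 0 := by
    rw [hN, prod_ne_zero_iff]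
    intro l hl
    rw [mem_Icc] at hl
    have : 2 ^ 1 ≤ 2 ^ l := Nat.pow_le_pow_right (by norm_num) hl.1
    omega
  have h1 : ∏ p ∈ P, p ∣ N := by
    apply Finset.prod_primes_dvd
    · intro p hp
      exact (hP p hp).1.prime
    · intro p hp
      obtain ⟨_, l, h1, h2, h3⟩ := hP p hp
      exact h3.trans (dvd_prod_of_mem _ (mem_Icc.2 ⟨h1, h2⟩))
  have h2 : 2 ^ P.card ≤ N := by
    refine le_trans ?_ (Nat.le_of_dvd (Nat.pos_of_ne_zero hN0) h1)
    rw [← prod_const]
    exact prod_le_prod' (fun p hp => (hP p hp).1.two_le)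
  have h3 : N ≤ 2 ^ (L * L) := by
    calc N ≤ ∏ l ∈ Icc 1 L, 2 ^ L := by
          refine prod_le_prod' (fun l hl => ?_)
          rw [mem_Icc] at hl
          exact (Nat.sub_le _ _).trans (Nat.pow_le_pow_right (by norm_num) hl.2)
      _ = 2 ^ (L * L) := by
          rw [prod_const, Nat.card_Icc, Nat.add_sub_cancel, ← pow_mul]
  exact (Nat.pow_le_pow_iff_right (by norm_num)).1 (h2.trans h3)

lemma harm_le (x : ℕ) : ∑ n ∈ Icc 1 x, (1 : ℝ) / n ≤ 1 + log x := by
  have h := harmonic_le_one_add_log x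
  rw [harmonic_eq_sum_Icc] at h
  push_cast at h
  simpa [one_div] using h

open scoped Classical in
/-- the pseudoprimes with a prime factor above `y` -/
lemma rough (x y L : ℕ) (hx : 1 ≤ x) (hy : 1 ≤ y) (hL : 1 ≤ L) :
    (((Psp x).filter (fun n => ∃ p, p.Prime ∧ y < p ∧ p ∣ n)).card : ℝ) ≤
      (x : ℝ) * ((L : ℝ) ^ 2 / y + (1 + log x) / L) := by
  set P : Finset ℕ := (Icc (y + 1) x).filter (fun p => p.Prime ∧ orderOf (2 : ZMod p) ≠ 0) with hP
  have hsub : (Psp x).filter (fun n => ∃ p, p.Prime ∧ y < p ∧ p ∣ n) ⊆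
      P.biUnion (fun p => (Psp x).filter (fun n => p ∣ n)) := by
    intro n hn
    rw [mem_filter] at hn
    obtain ⟨hn1, p, hp, hyp, hpn⟩ := hn
    rw [mem_biUnion]
    obtain ⟨h2, hx', _, h⟩ := mem_Psp.1 hn1
    refine ⟨p, ?_, mem_filter.2 ⟨hn1, hpn⟩⟩
    rw [hP, mem_filter, mem_Icc]
    refine ⟨⟨hyp, (Nat.le_of_dvd (by omega) hpn).trans hx'⟩, hp, fun h0 => ?_⟩
    have h' : (2 : ZMod p) ^ (n - 1) = 1 := by
      have := congrArg (ZMod.castHom hpn (ZMod p)) h
      rwa [map_pow, map_one, map_ofNat] at this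
    have := orderOf_dvd_of_pow_eq_one h'
    rw [h0, zero_dvd_iff] at this
    omega
  have h1 : (((Psp x).filter (fun n => ∃ p, p.Prime ∧ y < p ∧ p ∣ n)).card : ℝ) ≤
      ∑ p ∈ P, (x : ℝ) / (p * orderOf (2 : ZMod p)) := by
    calc _ ≤ ((P.biUnion (fun p => (Psp x).filter (fun n => p ∣ n))).card : ℝ) := by
          exact_mod_cast card_le_card hsub
      _ ≤ ((∑ p ∈ P, ((Psp x).filter (fun n => p ∣ n)).card : ℕ) : ℝ) := by
          exact_mod_cast card_biUnion_le
      _ = ∑ p ∈ P, (((Psp x).filter (fun n => p ∣ n)).card : ℝ) := by push_cast; rfl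
      _ ≤ _ := by
          refine sum_le_sum (fun p hp => ?_)
          rw [hP, mem_filter] at hp
          exact card_dvd hp.2.1 x
  refine h1.trans ?_
  rw [← sum_filter_add_sum_filter_not P (fun p => orderOf (2 : ZMod p) ≤ L), mul_add]
  have hx0 : (0 : ℝ) ≤ x := Nat.cast_nonneg x
  have hy0 : (0 : ℝ) < y := by exact_mod_cast hy
  have hL0 : (0 : ℝ) < L := by exact_mod_cast hL
  refine add_le_add ?_ ?_
  · calc ∑ p ∈ P.filter (fun p => orderOf (2 : ZMod p) ≤ L), (x : ℝ) / (p * orderOf (2 : ZMod p))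
        ≤ ∑ p ∈ P.filter (fun p => orderOf (2 : ZMod p) ≤ L), (x : ℝ) / y := by
          refine sum_le_sum (fun p hp => ?_)
          rw [mem_filter, hP, mem_filter, mem_Icc] at hp
          obtain ⟨⟨⟨h1, h2⟩, h3, h4⟩, h5⟩ := hp
          have ho : (1 : ℝ) ≤ orderOf (2 : ZMod p) := by exact_mod_cast Nat.one_le_iff_ne_zero.2 h4
          have hpy : (y : ℝ) ≤ p := by exact_mod_cast (by omega : y ≤ p)
          refine div_le_div_of_nonneg_left hx0 hy0 ?_
          nlinarith
      _ = ((P.filter (fun p => orderOf (2 : ZMod p) ≤ L)).card : ℝ) * ((x : ℝ) / y) := by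
          rw [sum_const, nsmul_eq_mul]
      _ ≤ ((L * L : ℕ) : ℝ) * ((x : ℝ) / y) := by
          refine mul_le_mul_of_nonneg_right ?_ (by positivity)
          have := card_small_order L (P.filter (fun p => orderOf (2 : ZMod p) ≤ L)) ?_
          · exact_mod_cast this
          · intro p hp
            rw [mem_filter, hP, mem_filter, mem_Icc] at hp
            obtain ⟨⟨⟨h1, h2⟩, h3, h4⟩, h5⟩ := hp
            refine ⟨h3, orderOf (2 : ZMod p), Nat.one_le_iff_ne_zero.2 h4, h5, ?_⟩
            have h6 : ((2 ^ orderOf (2 : ZMod p) - 1 : ℕ) : ZMod p) = 0 := by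
              rw [Nat.cast_sub (Nat.one_le_two_pow)]
              push_cast
              rw [pow_orderOf_eq_one, sub_self]
            exact (ZMod.natCast_eq_zero_iff _ _).1 h6
      _ = (x : ℝ) * ((L : ℝ) ^ 2 / y) := by push_cast; ring
  · calc ∑ p ∈ P.filter (fun p => ¬ orderOf (2 : ZMod p) ≤ L), (x : ℝ) / (p * orderOf (2 : ZMod p))
        ≤ ∑ p ∈ P.filter (fun p => ¬ orderOf (2 : ZMod p) ≤ L), (x : ℝ) / L * (1 / p) := by
          refine sum_le_sum (fun p hp => ?_)
          rw [mem_filter, hP, mem_filter, mem_Icc] at hp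
          obtain ⟨⟨⟨h1, h2⟩, h3, h4⟩, h5⟩ := hp
          have ho : (L : ℝ) ≤ orderOf (2 : ZMod p) := by exact_mod_cast (not_le.1 h5).le
          have hp0 : (0 : ℝ) < p := by exact_mod_cast h3.pos
          rw [div_mul_div_comm, mul_one]
          refine div_le_div_of_nonneg_left hx0 (by positivity) ?_
          rw [mul_comm (L : ℝ)]
          exact mul_le_mul_of_nonneg_left ho hp0.le
      _ = (x : ℝ) / L * ∑ p ∈ P.filter (fun p => ¬ orderOf (2 : ZMod p) ≤ L), (1 : ℝ) / p := by
          rw [mul_sum]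
      _ ≤ (x : ℝ) / L * (1 + log x) := by
          refine mul_le_mul_of_nonneg_left ?_ (by positivity)
          refine le_trans (sum_le_sum_of_subset_of_nonneg ?_ (fun i _ _ => by positivity)) (harm_le x)
          intro p hp
          rw [mem_filter, hP, mem_filter, mem_Icc] at hp
          rw [mem_Icc]
          exact ⟨by omega, hp.1.1.2⟩
      _ = _ := by ring

end Pool.Agent.H76MW
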