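import Mathlib
import Pool.Agent.R176.ETM.Rankin
import Pool.Agent.H76MW.Rough

set_option autoImplicit false

/-! The number of base-2 pseudoprimes up to `x` is at most `C x exp (-√(log x) / 13)`. -/

namespace Pool.Agent.H76MW

open Finset Real Pool.Agent.R176.ETM

/-- integers up to `x` all of whose prime factors are at most `y` -/
lemma smooth (x y : ℕ) (hx : 1 ≤ x) (hy : 2 ≤ log y) (F : Finset ℕ)
    (hF : ∀ n ∈ F, 1 ≤ n ∧ n ≤ x ∧ ∀ p, p.Prime → p ∣ n → p ≤ y) :
    (F.card : ℝ) ≤ (x : ℝ) * exp (-(log x / log y) + 4 * exp 1 * (1 + log y)) := by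
  set σ : ℝ := 1 - 1 / log y with hσ
  have hly : 0 < log y := by linarith
  have hy0 : (0 : ℝ) < y := by
    by_contra h
    have : (y : ℝ) = 0 := le_antisymm (not_lt.1 h) (Nat.cast_nonneg y)
    rw [this, log_zero] at hly
    exact lt_irrefl _ hly
  have h12 : 1 / log y ≤ 1 / 2 := one_div_le_one_div_of_le (by norm_num) hy
  have h0 : 0 < σ := by rw [hσ]; linarith
  set P : Finset ℕ := (Icc 1 y).filter Nat.Prime with hPdef
  have hP : ∀ p ∈ P, p.Prime := fun p hp => (mem_filter.1 hp).2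
  have h1 := rankin h0 P hP x F (fun n hn => by
    obtain ⟨h1, h2, h3⟩ := hF n hn
    refine ⟨h1, h2, fun p hp => ?_⟩
    have hpp := Nat.prime_of_mem_primeFactors hp
    rw [hPdef, mem_filter, mem_Icc]
    exact ⟨⟨hpp.one_le, h3 p hpp (Nat.dvd_of_mem_primeFactors hp)⟩, hpp⟩)
  have h2 := prod_le h0 P hP
  have hx0 : (0 : ℝ) < x := by exact_mod_cast hx
  have hc : (1 - (2 : ℝ) ^ (-σ))⁻¹ ≤ 4 := by
    have h3 : (2 : ℝ) ^ (-σ) ≤ 3 / 4 := by
      have h4 : (2 : ℝ) ^ (-σ) ≤ (2 : ℝ) ^ (-(1 / 2) : ℝ) :=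
        rpow_le_rpow_of_exponent_le (by norm_num) (by rw [hσ]; linarith)
      refine h4.trans ?_
      rw [rpow_neg (by norm_num), ← sqrt_eq_rpow]
      rw [inv_le_comm₀ (by positivity) (by norm_num)]
      apply le_sqrt_of_sq_le
      norm_num
    rw [inv_le_comm₀ (by linarith) (by norm_num)]
    linarith
  have hsum : ∑ p ∈ P, (p : ℝ) ^ (-σ) ≤ exp 1 * (1 + log y) := by
    calc ∑ p ∈ P, (p : ℝ) ^ (-σ) ≤ ∑ p ∈ P, exp 1 * (1 / p) := by
          refine sum_le_sum (fun p hp => ?_)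
          rw [hPdef, mem_filter, mem_Icc] at hp
          have hp0 : (0 : ℝ) < p := by exact_mod_cast hp.2.pos
          have e : -σ = -1 + 1 / log y := by rw [hσ]; ring
          rw [e, rpow_add hp0, rpow_neg_one, mul_comm, ← one_div]
          refine mul_le_mul_of_nonneg_right ?_ (by positivity)
          rw [rpow_def_of_pos hp0]
          refine exp_le_exp.2 ?_
          rw [mul_one_div, div_le_one hly]
          exact log_le_log hp0 (by exact_mod_cast hp.1.2)
      _ = exp 1 * ∑ p ∈ P, (1 : ℝ) / p := by rw [mul_sum]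
      _ ≤ exp 1 * (1 + log y) := by
          refine mul_le_mul_of_nonneg_left ?_ (exp_pos 1).le
          refine le_trans (sum_le_sum_of_subset_of_nonneg (filter_subset _ _)
            (fun i _ _ => by positivity)) (harm_le y)
  have hsum0 : 0 ≤ ∑ p ∈ P, (p : ℝ) ^ (-σ) := sum_nonneg (fun p _ => by positivity)
  calc (F.card : ℝ) ≤ (x : ℝ) ^ σ * ∏ p ∈ P, (1 - (p : ℝ) ^ (-σ))⁻¹ := h1
    _ ≤ (x : ℝ) ^ σ * exp (4 * exp 1 * (1 + log y)) := by
        refine mul_le_mul_of_nonneg_left (h2.trans (exp_le_exp.2 ?_)) (by positivity)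
        rw [mul_assoc]
        exact mul_le_mul hc hsum hsum0 (by norm_num)
    _ = (x : ℝ) * exp (-(log x / log y) + 4 * exp 1 * (1 + log y)) := by
        rw [exp_add, ← mul_assoc]
        congr 1
        rw [hσ, sub_eq_add_neg, rpow_add hx0, rpow_one, rpow_def_of_pos hx0]
        congr 2
        ring

/-- `s ^ 2` is small against `exp` -/
lemma sq_le_exp (s : ℝ) (hs : 0 ≤ s) (a : ℝ) (ha : 0 < a) : s ^ 2 ≤ 2 * a ^ 2 * exp (s / a) := by
  have h := quadratic_le_exp_of_nonneg (x := s / a) (by positivity)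
  have h1 : (s / a) ^ 2 / 2 ≤ exp (s / a) := by
    have : 0 ≤ s / a := by positivity
    linarith
  have h2 : s ^ 2 = 2 * a ^ 2 * ((s / a) ^ 2 / 2) := by field_simp
  rw [h2]
  exact mul_le_mul_of_nonneg_left h1 (by positivity)

theorem psp_count : ∃ C : ℝ, 0 < C ∧ ∀ x : ℕ, 1 ≤ x →
    ((Psp x).card : ℝ) ≤ C * x * exp (-(sqrt (log x) / 13)) := by
  classical
  set C : ℝ := exp 12 + (4 + 4 * 156 ^ 2) with hC
  have hC0 : 0 < C := by positivity
  refine ⟨C, hC0, fun x hx => ?_⟩
  have hx0 : (0 : ℝ) < x := by exact_mod_cast hx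
  have hx1 : (1 : ℝ) ≤ x := by exact_mod_cast hx
  have hlx : 0 ≤ log x := log_nonneg hx1
  set s : ℝ := sqrt (log x) with hs
  have hs0 : 0 ≤ s := sqrt_nonneg _
  have hs2 : s ^ 2 = log x := sq_sqrt hlx
  have htriv : ((Psp x).card : ℝ) ≤ x := by
    have : (Psp x).card ≤ (Icc 2 x).card := card_filter_le _ _
    rw [Nat.card_Icc] at this
    exact_mod_cast this.trans (by omega)
  rcases lt_or_ge s 12 with h12 | h12
  · -- small `x`
    have h1 : 1 ≤ C * exp (-(s / 13)) := by
      have h2 : exp 12 * exp (-(s / 13)) ≤ C * exp (-(s / 13)) :=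
        mul_le_mul_of_nonneg_right (by rw [hC]; norm_num) (exp_pos _).le
      refine le_trans ?_ h2
      rw [← exp_add]
      exact one_le_exp (by linarith)
    calc ((Psp x).card : ℝ) ≤ x := htriv
      _ ≤ x * (C * exp (-(s / 13))) := le_mul_of_one_le_right hx0.le h1
      _ = _ := by ring
  · set E : ℝ := exp (s / 4) with hE
    have he : (2.7182818283 : ℝ) < exp 1 := exp_one_gt_d9
    have he' : exp 1 < (2.7182818286 : ℝ) := exp_one_lt_d9
    have hE3 : (2.7 : ℝ) ^ 3 ≤ E := by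
      calc (2.7 : ℝ) ^ 3 ≤ (exp 1) ^ 3 := by gcongr; linarith
        _ = exp 3 := by rw [← exp_nat_mul]; norm_num
        _ ≤ E := by rw [hE]; exact exp_le_exp.2 (by linarith)
    have hE9 : (9 : ℝ) ≤ E := le_trans (by norm_num) hE3
    set y : ℕ := ⌊E⌋₊ with hy
    have hyE : (y : ℝ) ≤ E := Nat.floor_le (by linarith)
    have hyE' : E < y + 1 := Nat.lt_floor_add_one E
    have hy9 : 9 ≤ y := Nat.le_floor (by exact_mod_cast hE9)
    have hy9' : (9 : ℝ) ≤ y := by exact_mod_cast hy9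
    have hly : 2 ≤ log y := by
      rw [le_log_iff_exp_le (by linarith)]
      calc exp 2 = (exp 1) ^ 2 := by rw [← exp_nat_mul]; norm_num
        _ ≤ (2.72 : ℝ) ^ 2 := by gcongr; linarith
        _ ≤ y := by norm_num; linarith
    have hly2 : log y ≤ s / 4 := by
      have := log_le_log (by linarith) hyE
      rwa [hE, log_exp] at this
    set T : ℝ := exp (s / 12) with hT
    have hT3 : T ^ 3 = E := by
      rw [hT, hE, ← exp_nat_mul]
      congr 1
      push_cast
      ring
    have hT1 : 2.7 ≤ T := by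
      have : exp 1 ≤ T := exp_le_exp.2 (by linarith)
      linarith
    have hT0 : 0 < T := exp_pos _
    set L : ℕ := ⌊T⌋₊ with hL
    have hLT : (L : ℝ) ≤ T := Nat.floor_le hT0.le
    have hLT' : T < L + 1 := Nat.lt_floor_add_one T
    have hL2 : 2 ≤ L := Nat.le_floor (by norm_num; linarith)
    have hL2' : (2 : ℝ) ≤ L := by exact_mod_cast hL2
    -- the two parts
    have hsplit := (card_filter_add_card_filter_not (s := Psp x)
      (fun n => ∃ p, p.Prime ∧ y < p ∧ p ∣ n)).symm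
    have hr := rough x y L hx (by omega) (by omega)
    have hsm := smooth x y hx hly ((Psp x).filter (fun n => ¬ ∃ p, p.Prime ∧ y < p ∧ p ∣ n)) (by
      intro n hn
      rw [mem_filter] at hn
      obtain ⟨h2, hx', _, _⟩ := mem_Psp.1 hn.1
      refine ⟨by omega, hx', fun p hp hpn => ?_⟩
      by_contra hlt
      exact hn.2 ⟨p, hp, not_le.1 hlt, hpn⟩)
    have hsplit' : ((Psp x).card : ℝ) =
        (((Psp x).filter (fun n => ∃ p, p.Prime ∧ y < p ∧ p ∣ n)).card : ℝ) +
        (((Psp x).filter (fun n => ¬ ∃ p, p.Prime ∧ y < p ∧ p ∣ n)).card : ℝ) := by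
      exact_mod_cast hsplit
    have hr2 : (L : ℝ) ^ 2 / y + (1 + log x) / L ≤ (4 + 4 * 156 ^ 2) * exp (-(s / 13)) := by
      have hyT : T ^ 3 / 2 ≤ y := by rw [hT3]; linarith
      have hLT2 : T / 2 ≤ L := by linarith
      have a1 : (L : ℝ) ^ 2 / y ≤ 2 / T := by
        calc (L : ℝ) ^ 2 / y ≤ T ^ 2 / (T ^ 3 / 2) := by gcongr
          _ = 2 / T := by field_simp
      have a2 : (1 + log x) / L ≤ 2 * (1 + s ^ 2) / T := by
        calc (1 + log x) / L ≤ (1 + log x) / (T / 2) := by gcongr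
          _ = 2 * (1 + s ^ 2) / T := by rw [hs2]; field_simp
      have a3 : s ^ 2 ≤ 2 * 156 ^ 2 * exp (s / 156) := sq_le_exp s hs0 156 (by norm_num)
      have a4 : (1 : ℝ) ≤ exp (s / 156) := one_le_exp (by positivity)
      have a5 : exp (s / 156) / T = exp (-(s / 13)) := by
        rw [hT, ← exp_sub]
        congr 1
        ring
      calc (L : ℝ) ^ 2 / y + (1 + log x) / L ≤ 2 / T + 2 * (1 + s ^ 2) / T := add_le_add a1 a2
        _ = (4 + 2 * s ^ 2) / T := by ring
        _ ≤ ((4 + 4 * 156 ^ 2) * exp (s / 156)) / T := by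
            refine div_le_div_of_nonneg_right ?_ hT0.le
            nlinarith
        _ = (4 + 4 * 156 ^ 2) * exp (-(s / 13)) := by rw [mul_div_assoc, a5]
    have hs3 : -(log x / log y) + 4 * exp 1 * (1 + log y) ≤ 12 + -(s / 13) := by
      have b1 : 4 * s ≤ log x / log y := by
        rw [le_div_iff₀ (by linarith), ← hs2]
        nlinarith
      have b2 : 4 * exp 1 * (1 + log y) ≤ 11 * (1 + s / 4) :=
        mul_le_mul (by linarith) (by linarith) (by linarith) (by norm_num)
      linarith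
    rw [hsplit']
    calc _ ≤ (x : ℝ) * ((L : ℝ) ^ 2 / y + (1 + log x) / L) +
          (x : ℝ) * exp (-(log x / log y) + 4 * exp 1 * (1 + log y)) := add_le_add hr hsm
      _ ≤ (x : ℝ) * ((4 + 4 * 156 ^ 2) * exp (-(s / 13))) +
          (x : ℝ) * (exp 12 * exp (-(s / 13))) := by
          refine add_le_add (mul_le_mul_of_nonneg_left hr2 hx0.le)
            (mul_le_mul_of_nonneg_left ?_ hx0.le)
          rw [← exp_add]
          exact exp_le_exp.2 hs3
      _ = C * x * exp (-(s / 13)) := by rw [hC]; ring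

end Pool.Agent.H76MW
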